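import Pool.Agent.Helper36_F5H.StmtsK

/-!
MP_f5cbfa_nt, squad F5H, row K_WSC: one scale of the weighted count, with measures.
-/

set_option autoImplicit false

open MeasureTheory Complex ComplexConjugate

namespace Pool.Agent.F5H.K2.H27

open Pool.Agent.Helper68_F5 Pool.Agent.F5H.W36 Pool.Agent.F5H.K2

theorem xw_nonneg {R V ω : ℝ} (hR : 0 ≤ R) (hV : 0 ≤ V) (hω : 0 ≤ ω) : 0 ≤ xw R V ω := by
  unfold xw
  positivity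

/-- the width divided by `R` -/
theorem WR_le {P R S V₁ V ω : ℝ} (hP : 1 ≤ P) (hR : 1 ≤ R) (hRV : R ≤ 2 * V₁) (hV : 1 ≤ V)
    (hV1 : V ≤ V₁) (hS : 0 < S) (hVS : V₁ ^ 7 ≤ S ^ 2) (hω : 0 ≤ ω) :
    WW (2 * P) R S V₁ V (5 * ω + 16640000 * P ^ 6 * (V / R)) / R ≤
      17000000 * P ^ 6 * xw R V ω := by
  have hR0 : 0 < R := by linarith
  have hV0 : 0 < V := by linarith
  have hs : 0 < Real.sqrt R := Real.sqrt_pos.2 hR0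
  have hP6 : 1 ≤ P ^ 6 := one_le_pow₀ hP
  have hP26 : P ^ 2 ≤ P ^ 6 := pow_le_pow_right₀ hP (by norm_num)
  have h1 := vs_aux hR hRV hV1 hS hVS
  obtain ⟨q, hq⟩ : ∃ q, q = V₁ ^ 2 / S * V := ⟨_, rfl⟩
  obtain ⟨a, ha⟩ : ∃ a, a = 1 / Real.sqrt R := ⟨_, rfl⟩
  obtain ⟨b, hb⟩ : ∃ b, b = ω / R := ⟨_, rfl⟩
  obtain ⟨d, hd⟩ : ∃ d, d = V / R ^ 2 := ⟨_, rfl⟩
  have ha0 : 0 ≤ a := by rw [ha]; positivity
  have hb0 : 0 ≤ b := by rw [hb]; positivity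
  have hd0 : 0 ≤ d := by rw [hd]; positivity
  have h1' : q ≤ 2 * a := by rw [hq, ha]; refine le_trans h1 (le_of_eq ?_); ring
  have e1 : WW (2 * P) R S V₁ V (5 * ω + 16640000 * P ^ 6 * (V / R)) / R =
      5 * b + 16640000 * P ^ 6 * d + 6144 * P ^ 2 * q := by
    unfold WW
    rw [hq, hb, hd]
    field_simp
    ring
  rw [e1]
  unfold xw
  rw [← ha, ← hb, ← hd]
  have i1 : P ^ 2 * q ≤ P ^ 6 * (2 * a) := by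
    have : P ^ 2 * q ≤ P ^ 2 * (2 * a) := mul_le_mul_of_nonneg_left h1' (by positivity)
    exact le_trans this (mul_le_mul_of_nonneg_right hP26 (by positivity))
  have i2 : b ≤ P ^ 6 * b := by nlinarith
  have i3 : 0 ≤ P ^ 6 * a := by positivity
  have i4 : 0 ≤ P ^ 6 * d := by positivity
  nlinarith

theorem del_le {P R x W : ℝ} (hP : 1 ≤ P) (hR : 1 ≤ R) (hx : 1 / Real.sqrt R ≤ x)
    (hW : W / R ≤ 17000000 * P ^ 6 * x) :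
    del R W ≤ 20000000 * P ^ 6 * (1 + Real.log R) * x := by
  have hl := Real.log_nonneg hR
  have hP6 : 1 ≤ P ^ 6 := one_le_pow₀ hP
  have hx0 : 0 ≤ x := le_trans (by positivity) hx
  unfold del
  obtain ⟨l, hll⟩ : ∃ l, l = 1 + Real.log R := ⟨_, rfl⟩
  have hl1 : 1 ≤ l := by rw [hll]; linarith
  rw [← hll]
  have h1 : W / R * l ≤ 17000000 * P ^ 6 * x * l := mul_le_mul_of_nonneg_right hW (by linarith)
  have h2 : 1 ≤ P ^ 6 * l := by nlinarith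
  have h3 : x ≤ P ^ 6 * l * x := by nlinarith
  have h4 : 0 ≤ P ^ 6 * l * x := by positivity
  nlinarith

theorem QQ_le {c l x W R : ℝ} (hc : 1 ≤ c) (hl : 1 ≤ l) (hx : 0 ≤ x) (h1 : 1 + W / R ≤ c * (1 + x))
    (h2 : del R W ≤ c * l * x) (h0 : 0 ≤ del R W) : QQ R W ≤ c ^ 2 * l * (1 + x) ^ 2 := by
  unfold QQ
  have h3 : (1 + W / R) * del R W ≤ (c * (1 + x)) * (c * l * x) :=
    mul_le_mul h1 h2 h0 (by positivity)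
  have h4 : 1 ≤ c ^ 2 * l := by nlinarith [one_le_pow₀ hc (n := 2)]
  have h5 : 1 ≤ c ^ 2 * l * (1 + x) := by nlinarith
  calc 1 + (1 + W / R) * del R W ≤ c ^ 2 * l * (1 + x) + (c * (1 + x)) * (c * l * x) :=
        add_le_add h5 h3
    _ = _ := by ring

/-- the bracket -/
theorem bracket {c l V₁ V₂ Λ Λ' x₁ x₂ Q₁ Q₂ d₁ d₂ : ℝ} (hc : 1 ≤ c) (hl : 1 ≤ l) (hV₁ : 0 ≤ V₁)
    (hV₂ : 0 < V₂) (hΛ : 0 ≤ Λ) (hΛ' : Λ' ≤ c * Λ) (hx₁ : 0 ≤ x₁) (hx₂ : 0 ≤ x₂) (hQ₁0 : 0 ≤ Q₁)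
    (hQ₂0 : 0 ≤ Q₂) (hd₁0 : 0 ≤ d₁) (hd₂0 : 0 ≤ d₂) (hΛ0 : 0 ≤ Λ')
    (hQ₁ : Q₁ ≤ c ^ 2 * l * (1 + x₁) ^ 2) (hQ₂ : Q₂ ≤ c ^ 2 * l * (1 + x₂) ^ 2)
    (hd₁ : d₁ ≤ c * l * x₁) (hd₂ : d₂ ≤ c * l * x₂) :
    Q₁ * Q₂ + Q₁ * (V₂ * d₂) + Q₂ * (V₁ * d₁) + Λ' / V₂ * (d₁ * d₂) ≤
      c ^ 4 * l ^ 2 * ((1 + x₁) ^ 2 * (1 + x₂) ^ 2 + (1 + x₁) ^ 2 * (V₂ * x₂) +
        (1 + x₂) ^ 2 * (V₁ * x₁) + Λ / V₂ * (x₁ * x₂)) := by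
  have hc0 : 0 ≤ c := by linarith
  have hl0 : 0 ≤ l := by linarith
  have hc34 : c ^ 3 ≤ c ^ 4 := pow_le_pow_right₀ hc (by norm_num)
  have t1 : Q₁ * Q₂ ≤ c ^ 4 * l ^ 2 * ((1 + x₁) ^ 2 * (1 + x₂) ^ 2) := by
    calc Q₁ * Q₂ ≤ (c ^ 2 * l * (1 + x₁) ^ 2) * (c ^ 2 * l * (1 + x₂) ^ 2) :=
          mul_le_mul hQ₁ hQ₂ hQ₂0 (by positivity)
      _ = _ := by ring
  have t2 : Q₁ * (V₂ * d₂) ≤ c ^ 4 * l ^ 2 * ((1 + x₁) ^ 2 * (V₂ * x₂)) := by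
    calc Q₁ * (V₂ * d₂) ≤ (c ^ 2 * l * (1 + x₁) ^ 2) * (V₂ * (c * l * x₂)) :=
          mul_le_mul hQ₁ (mul_le_mul_of_nonneg_left hd₂ hV₂.le) (by positivity) (by positivity)
      _ = c ^ 3 * (l ^ 2 * ((1 + x₁) ^ 2 * (V₂ * x₂))) := by ring
      _ ≤ c ^ 4 * (l ^ 2 * ((1 + x₁) ^ 2 * (V₂ * x₂))) :=
          mul_le_mul_of_nonneg_right hc34 (by positivity)
      _ = _ := by ring
  have t3 : Q₂ * (V₁ * d₁) ≤ c ^ 4 * l ^ 2 * ((1 + x₂) ^ 2 * (V₁ * x₁)) := by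
    calc Q₂ * (V₁ * d₁) ≤ (c ^ 2 * l * (1 + x₂) ^ 2) * (V₁ * (c * l * x₁)) :=
          mul_le_mul hQ₂ (mul_le_mul_of_nonneg_left hd₁ hV₁) (by positivity) (by positivity)
      _ = c ^ 3 * (l ^ 2 * ((1 + x₂) ^ 2 * (V₁ * x₁))) := by ring
      _ ≤ c ^ 4 * (l ^ 2 * ((1 + x₂) ^ 2 * (V₁ * x₁))) :=
          mul_le_mul_of_nonneg_right hc34 (by positivity)
      _ = _ := by ring
  have t4 : Λ' / V₂ * (d₁ * d₂) ≤ c ^ 4 * l ^ 2 * (Λ / V₂ * (x₁ * x₂)) := by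
    have a1 : Λ' / V₂ ≤ c * Λ / V₂ := div_le_div_of_nonneg_right hΛ' hV₂.le
    have a2 : d₁ * d₂ ≤ (c * l * x₁) * (c * l * x₂) := mul_le_mul hd₁ hd₂ hd₂0 (by positivity)
    calc Λ' / V₂ * (d₁ * d₂) ≤ (c * Λ / V₂) * ((c * l * x₁) * (c * l * x₂)) :=
          mul_le_mul a1 a2 (by positivity) (by positivity)
      _ = c ^ 3 * (l ^ 2 * (Λ / V₂ * (x₁ * x₂))) := by ring
      _ ≤ c ^ 4 * (l ^ 2 * (Λ / V₂ * (x₁ * x₂))) :=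
          mul_le_mul_of_nonneg_right hc34 (by positivity)
      _ = _ := by ring
  calc _ ≤ c ^ 4 * l ^ 2 * ((1 + x₁) ^ 2 * (1 + x₂) ^ 2) +
        c ^ 4 * l ^ 2 * ((1 + x₁) ^ 2 * (V₂ * x₂)) + c ^ 4 * l ^ 2 * ((1 + x₂) ^ 2 * (V₁ * x₁)) +
        c ^ 4 * l ^ 2 * (Λ / V₂ * (x₁ * x₂)) := add_le_add (add_le_add (add_le_add t1 t2) t3) t4
    _ = _ := by ring

theorem wsc : WSCStmt := by
  obtain ⟨K, hK, hw⟩ := wpair_count Helper38_F5.strip Helper38_F5.discStrip Helper38_F5.box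
    Helper38_F5.ann Helper38_F5.annStrip Helper38_F5.short 1 one_pos
  refine ⟨K * (2 ^ 9 * 90000 * 120 * 20000000 ^ 4 * 8), by nlinarith, ?_⟩
  intro g hg P R S V₁ V₂ V₃ r ω₁ ω₂ Λ C hP hPR hRV hS hVS hV3 h32 h21 hr hω₁ hω₂ hΛ 𝓟 f hp hlev hf
  have hP0 : 0 < P := by linarith
  have hP3 : 1 ≤ P ^ 3 := one_le_pow₀ hP
  have hP6 : 1 ≤ P ^ 6 := one_le_pow₀ hP
  have hR : 1 ≤ R := by linarith
  have hR0 : 0 < R := by linarith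
  have hV₁ : 1 ≤ V₁ := by linarith
  have hV₂ : 1 ≤ V₂ := by linarith
  have hV₁0 : 0 < V₁ := by linarith
  have hV₂0 : 0 < V₂ := by linarith
  have hV₃0 : 0 < V₃ := by linarith
  obtain ⟨t₀, ht₀⟩ : ∃ t, t = min r V₃ := ⟨_, rfl⟩
  have ht1 : 1 ≤ t₀ := by rw [ht₀]; exact le_min hr hV3
  obtain ⟨μ, hμ⟩ : ∃ μ, μ = min (80 * P / R) (40 * P * (min r V₃ / V₃)) := ⟨_, rfl⟩
  have hμ0 : 0 ≤ μ := by
    rw [hμ, ← ht₀]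
    exact le_min (by positivity) (by positivity)
  have m1 : R * μ ≤ 80 * P := by
    have : μ ≤ 80 * P / R := by rw [hμ]; exact min_le_left _ _
    calc R * μ ≤ R * (80 * P / R) := mul_le_mul_of_nonneg_left this hR0.le
      _ = _ := by field_simp
  have m2 : V₃ * μ ≤ 40 * P * t₀ := by
    have : μ ≤ 40 * P * (t₀ / V₃) := by rw [hμ, ← ht₀]; exact min_le_right _ _
    calc V₃ * μ ≤ V₃ * (40 * P * (t₀ / V₃)) := mul_le_mul_of_nonneg_left this hV₃0.le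
      _ = _ := by field_simp
  obtain ⟨L, hL⟩ : ∃ L, L = 1 + Real.log V₁ := ⟨_, rfl⟩
  have hlV := Real.log_nonneg hV₁
  have hL1 : 1 ≤ L := by rw [hL]; linarith
  obtain ⟨J, hJ⟩ : ∃ J, J = ⌈2 * Real.log V₁⌉₊ := ⟨_, rfl⟩
  have hJ1 : V₁ ≤ 2 ^ J := by
    have a1 : 2 * Real.log V₁ ≤ J := by rw [hJ]; exact Nat.le_ceil _
    have a2 := Real.log_two_gt_d9
    have a3 : Real.log V₁ ≤ Real.log ((2 : ℝ) ^ J) := by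
      rw [Real.log_pow]
      have : (0 : ℝ) ≤ J := Nat.cast_nonneg _
      nlinarith
    exact (Real.log_le_log_iff hV₁0 (by positivity)).1 a3
  have hJ2 : ((J : ℝ) + 1) ≤ 2 * L := by
    have a1 : (J : ℝ) < 2 * Real.log V₁ + 1 := by
      rw [hJ]; exact Nat.ceil_lt_add_one (by positivity)
    rw [hL]
    linarith
  obtain ⟨l, hl⟩ : ∃ l, l = 1 + Real.log R := ⟨_, rfl⟩
  have hl1 : 1 ≤ l := by rw [hl]; linarith [Real.log_nonneg hR]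
  have hl2 : l ≤ 2 * L := by
    have a1 : Real.log R ≤ Real.log (2 * V₁) := Real.log_le_log hR0 hRV
    rw [Real.log_mul (by norm_num) hV₁0.ne'] at a1
    have a2 := Real.log_two_lt_d9
    rw [hl, hL]
    linarith
  have key := hw g hg (2 * P) R S V₁ V₂ V₃ (5 * ω₁ + 16640000 * P ^ 6 * (V₁ / R))
    (5 * ω₂ + 16640000 * P ^ 6 * (V₂ / R)) (2 * R * min r V₃ + 90000 * P ^ 3 * V₃)
    (21504 * P ^ 6 * Λ) J C (by linarith) (by nlinarith) hS hV₂ h21 hV₃0.le h32 (by positivity)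
    (by positivity) (by rw [← ht₀]; positivity) (by positivity) hJ1 𝓟 hp hlev
  obtain ⟨W₁, hW₁⟩ : ∃ W, W = WW (2 * P) R S V₁ V₁ (5 * ω₁ + 16640000 * P ^ 6 * (V₁ / R)) :=
    ⟨_, rfl⟩
  obtain ⟨W₂, hW₂⟩ : ∃ W, W = WW (2 * P) R S V₁ V₂ (5 * ω₂ + 16640000 * P ^ 6 * (V₂ / R)) :=
    ⟨_, rfl⟩
  obtain ⟨x₁, hx₁⟩ : ∃ x, x = xw R V₁ ω₁ := ⟨_, rfl⟩
  obtain ⟨x₂, hx₂⟩ : ∃ x, x = xw R V₂ ω₂ := ⟨_, rfl⟩
  have hx₁0 : 0 ≤ x₁ := by rw [hx₁]; exact xw_nonneg hR0.le hV₁0.le (by linarith)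
  have hx₂0 : 0 ≤ x₂ := by rw [hx₂]; exact xw_nonneg hR0.le hV₂0.le (by linarith)
  have hsx : ∀ V ω : ℝ, 0 ≤ V → 0 ≤ ω → 1 / Real.sqrt R ≤ xw R V ω := by
    intro V ω hV hω
    unfold xw
    have b1 : 0 ≤ ω / R := by positivity
    have b2 : 0 ≤ V / R ^ 2 := by positivity
    linarith
  have w1 := WR_le hP hR hRV hV₁ le_rfl hS hVS (by linarith : 0 ≤ ω₁)
  have w2 := WR_le hP hR hRV hV₂ h21 hS hVS (by linarith : 0 ≤ ω₂)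
  rw [← hW₁, ← hx₁] at w1
  rw [← hW₂, ← hx₂] at w2
  have hW₁0 : 0 ≤ W₁ := by
    rw [hW₁]; exact WW_nonneg hR0.le hS.le hV₁0.le (by positivity)
  have hW₂0 : 0 ≤ W₂ := by
    rw [hW₂]; exact WW_nonneg hR0.le hS.le hV₂0.le (by positivity)
  have d1 := del_le hP hR (by rw [hx₁]; exact hsx _ _ hV₁0.le (by linarith)) w1
  have d2 := del_le hP hR (by rw [hx₂]; exact hsx _ _ hV₂0.le (by linarith)) w2
  rw [← hl] at d1 d2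
  obtain ⟨c, hc⟩ : ∃ c, c = 20000000 * P ^ 6 := ⟨_, rfl⟩
  have hc1 : 1 ≤ c := by rw [hc]; linarith
  rw [← hc] at d1 d2
  have hδ₁ := del_nonneg hR hW₁0
  have hδ₂ := del_nonneg hR hW₂0
  have u1 : 1 + W₁ / R ≤ c * (1 + x₁) := by
    rw [hc]
    have : 0 ≤ P ^ 6 * x₁ := by positivity
    nlinarith
  have u2 : 1 + W₂ / R ≤ c * (1 + x₂) := by
    rw [hc]
    have : 0 ≤ P ^ 6 * x₂ := by positivity
    nlinarith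
  have q1 := QQ_le hc1 hl1 hx₁0 u1 d1 hδ₁
  have q2 := QQ_le hc1 hl1 hx₂0 u2 d2 hδ₂
  have br := bracket (V₁ := V₁) (V₂ := V₂) (Λ := Λ) (Λ' := 21504 * P ^ 6 * Λ) hc1 hl1 hV₁0.le
    hV₂0 hΛ (by
      have h0 : 0 ≤ P ^ 6 * Λ := by positivity
      calc 21504 * P ^ 6 * Λ = 21504 * (P ^ 6 * Λ) := by ring
        _ ≤ 20000000 * (P ^ 6 * Λ) := mul_le_mul_of_nonneg_right (by norm_num) h0
        _ = c * Λ := by rw [hc]; ring)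
    hx₁0 hx₂0 (le_trans zero_le_one (QQ_ge hR hW₁0)) (le_trans zero_le_one (QQ_ge hR hW₂0)) hδ₁
    hδ₂ (by positivity) q1 q2 d1 d2
  obtain ⟨Br, hBr⟩ : ∃ Br, Br = (1 + x₁) ^ 2 * (1 + x₂) ^ 2 + (1 + x₁) ^ 2 * (V₂ * x₂) +
        (1 + x₂) ^ 2 * (V₁ * x₁) + Λ / V₂ * (x₁ * x₂) := ⟨_, rfl⟩
  have hBr0 : 0 ≤ Br := by rw [hBr]; positivity
  rw [← hBr] at br
  have w3 := W3_le (t₀ := t₀) hP hR hRV hV3 (h32.trans h21) hS hVS ht1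
  have hN : NW (2 * P) R S V₁ V₂ V₃ (5 * ω₁ + 16640000 * P ^ 6 * (V₁ / R))
      (5 * ω₂ + 16640000 * P ^ 6 * (V₂ / R)) (2 * R * min r V₃ + 90000 * P ^ 3 * V₃)
      (21504 * P ^ 6 * Λ) ≤ R ^ 4 * (V₃ * (90000 * P ^ 3 * (t₀ + V₃ / R))) *
        (c ^ 4 * l ^ 2 * Br) := by
    unfold NW
    rw [← hW₁, ← hW₂, max_eq_right hV3, ← ht₀]
    have e0 : 0 ≤ 21504 * P ^ 6 * Λ / V₂ := by positivity
    have e1 := QQ_ge hR hW₁0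
    have e2 := QQ_ge hR hW₂0
    refine mul_le_mul ?_ br (by positivity) (by positivity)
    refine mul_le_mul_of_nonneg_left ?_ (by positivity)
    exact mul_le_mul_of_nonneg_left w3 hV₃0.le
  have key2 : (𝓟.card : ℝ) ≤ K * (2 * P) ^ 9 * (J + 1) *
      (R ^ 4 * (V₃ * (90000 * P ^ 3 * (t₀ + V₃ / R))) * (c ^ 4 * l ^ 2 * Br)) :=
    le_trans key (mul_le_mul_of_nonneg_left hN (by positivity))
  refine le_trans (sum_ofReal_le 𝓟 f hμ0 (fun p hp => by rw [hμ]; exact hf p hp) key2) ?_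
  apply ENNReal.ofReal_le_ofReal
  have g4 : R * (t₀ + V₃ / R) * (V₃ * μ) ≤ 120 * P * (V₃ * t₀) := by
    have e2 : R * (t₀ + V₃ / R) * (V₃ * μ) = V₃ * t₀ * (R * μ) + V₃ * (V₃ * μ) := by
      field_simp
    rw [e2]
    have i1 : V₃ * t₀ * (R * μ) ≤ V₃ * t₀ * (80 * P) := mul_le_mul_of_nonneg_left m1 (by positivity)
    have i2 : V₃ * (V₃ * μ) ≤ V₃ * (40 * P * t₀) := mul_le_mul_of_nonneg_left m2 hV₃0.le
    linarith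
  have hPH : PH R V₁ V₂ ω₁ ω₂ Λ = R ^ 3 / (V₁ ^ 2 * V₂ ^ 2) * Br := by
    unfold PH
    rw [← hx₁, ← hx₂, hBr]
  rw [hPH, ← ht₀, ← hL]
  have e5 : V₁ ^ 2 * V₂ ^ 2 * (V₃ * t₀) * (R ^ 3 / (V₁ ^ 2 * V₂ ^ 2) * Br) =
      V₃ * t₀ * (R ^ 3 * Br) := by
    field_simp
  have s1 : ((J : ℝ) + 1) * l ^ 2 ≤ 8 * L ^ 6 := by
    have a1 : l ^ 2 ≤ (2 * L) ^ 2 := pow_le_pow_left₀ (by linarith) hl2 2
    have a2 : ((J : ℝ) + 1) * l ^ 2 ≤ (2 * L) * (2 * L) ^ 2 :=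
      mul_le_mul hJ2 a1 (by positivity) (by positivity)
    have a3 : L ^ 3 ≤ L ^ 6 := pow_le_pow_right₀ hL1 (by norm_num)
    nlinarith
  have s2 : P ^ 37 ≤ P ^ 60 := pow_le_pow_right₀ hP (by norm_num)
  calc K * (2 * P) ^ 9 * (J + 1) *
      (R ^ 4 * (V₃ * (90000 * P ^ 3 * (t₀ + V₃ / R))) * (c ^ 4 * l ^ 2 * Br)) * μ
      = K * (2 ^ 9 * 90000 * 20000000 ^ 4) * P ^ 36 * (((J : ℝ) + 1) * l ^ 2) * (R ^ 3 * Br) *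
        (R * (t₀ + V₃ / R) * (V₃ * μ)) := by rw [hc]; ring
    _ ≤ K * (2 ^ 9 * 90000 * 20000000 ^ 4) * P ^ 36 * (8 * L ^ 6) * (R ^ 3 * Br) *
        (120 * P * (V₃ * t₀)) := by
        refine mul_le_mul ?_ g4 (by positivity) (by positivity)
        refine mul_le_mul_of_nonneg_right ?_ (by positivity)
        exact mul_le_mul_of_nonneg_left s1 (by positivity)
    _ = K * (2 ^ 9 * 90000 * 120 * 20000000 ^ 4 * 8) * L ^ 6 * (V₃ * t₀ * (R ^ 3 * Br)) *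
        P ^ 37 := by ring
    _ ≤ K * (2 ^ 9 * 90000 * 120 * 20000000 ^ 4 * 8) * L ^ 6 * (V₃ * t₀ * (R ^ 3 * Br)) *
        P ^ 60 := mul_le_mul_of_nonneg_left s2 (by positivity)
    _ = K * (2 ^ 9 * 90000 * 120 * 20000000 ^ 4 * 8) * P ^ 60 * L ^ 6 *
        (V₁ ^ 2 * V₂ ^ 2 * (V₃ * t₀) * (R ^ 3 / (V₁ ^ 2 * V₂ ^ 2) * Br)) := by
        rw [e5]; ring
    _ = _ := by ring

end Pool.Agent.F5H.K2.H27
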